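import Mathlib

set_option autoImplicit false

namespace Pool.Agent.Results.MP_549d70_gt.Games

open Set

universe u

/-- the moves of a player in rounds `0, …, n - 1`, the latest first -/
def hist {α : Type u} (U : ℕ → α) : ℕ → List α
  | 0 => []
  | n + 1 => U n :: hist U n

section Defs

variable (X : Type u) [TopologicalSpace X]

/-- the collection `D_Ω` -/
def DO : Set (Set (Set X)) :=
  {𝒰 | (∀ U ∈ 𝒰, IsOpen U) ∧ Dense (⋃₀ 𝒰) ∧ (∀ U ∈ 𝒰, ¬ univ ⊆ closure U) ∧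
    ∀ 𝓕 : Set (Set X), 𝓕.Finite → (∀ F ∈ 𝓕, IsOpen F ∧ F.Nonempty) →
      ∃ U ∈ 𝒰, ∀ F ∈ 𝓕, (U ∩ F).Nonempty}

def S1 : Prop :=
  ∀ 𝒰 : ℕ → Set (Set X), (∀ n, 𝒰 n ∈ DO X) →
    ∃ U : ℕ → Set X, (∀ n, U n ∈ 𝒰 n) ∧ range U ∈ DO X

def Sfin : Prop :=
  ∀ 𝒰 : ℕ → Set (Set X), (∀ n, 𝒰 n ∈ DO X) →
    ∃ 𝓕 : ℕ → Set (Set X), (∀ n, (𝓕 n).Finite ∧ 𝓕 n ⊆ 𝒰 n) ∧ (⋃ n, 𝓕 n) ∈ DO X

/-- ONE has a winning strategy in `G₁(D_Ω, D_Ω)` -/
def OneWins1 : Prop :=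
  ∃ σ : List (Set X) → Set (Set X), (∀ l, σ l ∈ DO X) ∧
    ∀ U : ℕ → Set X, (∀ n, U n ∈ σ (hist U n)) → range U ∉ DO X

/-- ONE has a winning strategy in `G_fin(D_Ω, D_Ω)` -/
def OneWinsFin : Prop :=
  ∃ σ : List (Set (Set X)) → Set (Set X), (∀ l, σ l ∈ DO X) ∧
    ∀ 𝓕 : ℕ → Set (Set X), (∀ n, (𝓕 n).Finite ∧ 𝓕 n ⊆ σ (hist 𝓕 n)) → (⋃ n, 𝓕 n) ∉ DO X

end Defs

variable {X : Type u} [TopologicalSpace X]

def Pt (p : Set (Set X)) : Prop := p.Finite ∧ ∀ F ∈ p, IsOpen F ∧ F.Nonempty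
def Hit (U : Set X) (p : Set (Set X)) : Prop := ∀ F ∈ p, (U ∩ F).Nonempty
def Sm (U : Set X) : Prop := IsOpen U ∧ ¬ univ ⊆ closure U
def C (Q : Set X → Prop) : Prop := ∀ p, Pt p → ∃ U, Sm U ∧ Hit U p ∧ Q U

theorem Hit.mono {U V : Set X} {p : Set (Set X)} (h : Hit U p) (hUV : U ⊆ V) : Hit V p :=
  fun F hF => (h F hF).mono (inter_subset_inter_left _ hUV)

theorem mem_DO {𝒰 : Set (Set X)} :
    𝒰 ∈ DO X ↔ (∀ U ∈ 𝒰, Sm U) ∧ ∀ p, Pt p → ∃ U ∈ 𝒰, Hit U p := by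
  constructor
  · rintro ⟨h1, -, h3, h4⟩
    exact ⟨fun U hU => ⟨h1 U hU, h3 U hU⟩, fun p hp => h4 p hp.1 hp.2⟩
  · rintro ⟨h1, h2⟩
    refine ⟨fun U hU => (h1 U hU).1, ?_, fun U hU => (h1 U hU).2, fun p k1 k2 => h2 p ⟨k1, k2⟩⟩
    rw [dense_iff_inter_open]
    intro F hF hne
    obtain ⟨U, hU, h⟩ := h2 {F} ⟨finite_singleton F, by rintro _ rfl; exact ⟨hF, hne⟩⟩
    obtain ⟨x, hx, hx'⟩ := h F rfl
    exact ⟨x, hx', U, hU, hx⟩

theorem C.mem {Q : Set X → Prop} (h : C Q) : {U | Sm U ∧ Q U} ∈ DO X :=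
  mem_DO.2 ⟨fun _ hU => hU.1, fun p hp => by
    obtain ⟨U, h1, h2, h3⟩ := h p hp
    exact ⟨U, ⟨h1, h3⟩, h2⟩⟩

theorem shrink {U : Set X} {p : Set (Set X)} (hp : Pt p) (hU : Sm U) (h : Hit U p)
    {Q : Set X → Prop} (hQ : C Q) : ∃ V, Q V ∧ Sm (U ∩ V) ∧ Hit (U ∩ V) p := by
  obtain ⟨V, h1, h2, h3⟩ := hQ ((fun F => U ∩ F) '' p) ⟨hp.1.image _, by
    rintro _ ⟨F, hF, rfl⟩
    exact ⟨hU.1.inter (hp.2 F hF).1, h F hF⟩⟩
  refine ⟨V, h3, ⟨hU.1.inter h1.1, fun k => hU.2 (k.trans (closure_mono inter_subset_left))⟩,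
    fun F hF => ?_⟩
  obtain ⟨x, hx1, hx2, hx3⟩ := h2 _ ⟨F, hF, rfl⟩
  exact ⟨x, ⟨hx2, hx1⟩, hx3⟩

theorem C.fin {ι : Type*} {Q : ι → Set X → Prop} (h0 : C fun _ : Set X => True)
    (hd : ∀ i U V, V ⊆ U → Q i U → Q i V) {T : Set ι} (hT : T.Finite) (h : ∀ i ∈ T, C (Q i)) :
    C fun U => ∀ i ∈ T, Q i U := by
  induction T, hT using Set.Finite.induction_on with
  | empty =>
    intro p hp
    obtain ⟨U, h1, h2, -⟩ := h0 p hp
    exact ⟨U, h1, h2, fun i hi => absurd hi (notMem_empty i)⟩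
  | @insert a T _ _ ih =>
    intro p hp
    obtain ⟨U, h1, h2, h3⟩ := h a (mem_insert _ _) p hp
    obtain ⟨V, k1, k2, k3⟩ := shrink hp h1 h2 (ih fun i hi => h i (mem_insert_of_mem _ hi))
    refine ⟨U ∩ V, k2, k3, ?_⟩
    rintro i (rfl | hi)
    · exact hd _ _ _ inter_subset_left h3
    · exact hd _ _ _ inter_subset_right (k1 i hi)

theorem enum (h : Sfin X) {𝒰 : Set (Set X)} (h𝒰 : 𝒰 ∈ DO X) :
    ∃ e : ℕ → Set X, (∀ j, e j ∈ 𝒰) ∧ ∀ p, Pt p → ∃ j, Hit (e j) p := by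
  obtain ⟨𝓕, h1, h2⟩ := h (fun _ => 𝒰) fun _ => h𝒰
  obtain ⟨U0, hU0, -⟩ := (mem_DO.1 h2).2 ∅ ⟨finite_empty, by simp⟩
  obtain ⟨e, he⟩ := (countable_iUnion fun n => (h1 n).1.countable).exists_eq_range ⟨U0, hU0⟩
  refine ⟨e, fun j => ?_, fun p hp => ?_⟩
  · obtain ⟨n, hn⟩ := mem_iUnion.1 (he ▸ mem_range_self j : e j ∈ ⋃ n, 𝓕 n)
    exact (h1 n).2 hn
  · obtain ⟨U, hU, hU'⟩ := (mem_DO.1 h2).2 p hp
    rw [he] at hU
    obtain ⟨j, rfl⟩ := hU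
    exact ⟨j, hU'⟩

theorem hist_length {α : Type u} (g : ℕ → α) (n : ℕ) : (hist g n).length = n := by
  induction n with
  | zero => rfl
  | succ n ih => simp [hist, ih]

theorem hist_suffix {α : Type u} (g : ℕ → α) (m n : ℕ) : hist g m <:+ hist g (m + n) := by
  induction n with
  | zero => exact List.suffix_refl _
  | succ n ih => exact ih.trans (List.suffix_cons _ _)

def Good (e : List ℕ → ℕ → Set X) (t : List ℕ) (m n K : ℕ) (U : Set X) : Prop :=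
  ∀ g : ℕ → ℕ, hist g m = t → (∃ i, m ≤ i ∧ i < m + n ∧ K < g i) →
    ∃ i, m ≤ i ∧ ∃ j ≤ g i, U ⊆ e (hist g i) j

theorem Good.mono {e : List ℕ → ℕ → Set X} {t : List ℕ} {m n K K' : ℕ} {U V : Set X}
    (h : Good e t m n K U) (hK : K ≤ K') (hV : V ⊆ U) : Good e t m n K' V := by
  rintro g hg ⟨i, h1, h2, h3⟩
  obtain ⟨i, k1, j, k2, k3⟩ := h g hg ⟨i, h1, h2, hK.trans_lt h3⟩
  exact ⟨i, k1, j, k2, hV.trans k3⟩

theorem good_cover {e : List ℕ → ℕ → Set X} (h1 : ∀ t j, Sm (e t j))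
    (h2 : ∀ t p, Pt p → ∃ j, Hit (e t j) p) (n : ℕ) :
    ∀ t m, C fun U => ∃ K, Good e t m n K U := by
  have h0 : C fun _ : Set X => True := fun p hp => by
    obtain ⟨j, hj⟩ := h2 [] p hp
    exact ⟨_, h1 _ _, hj, trivial⟩
  induction n with
  | zero =>
    intro t m p hp
    obtain ⟨U, k1, k2, -⟩ := h0 p hp
    exact ⟨U, k1, k2, 0, fun g _ ⟨i, a1, a2, _⟩ => by omega⟩
  | succ n ih =>
    intro t m p hp
    obtain ⟨j0, hj0⟩ := h2 t p hp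
    obtain ⟨V, k1, k2, k3⟩ := shrink hp (h1 t j0) hj0 (C.fin h0
      (Q := fun k U => ∃ K, Good e (k :: t) (m + 1) n K U)
      (fun k U V hV ⟨K, hK⟩ => ⟨K, hK.mono le_rfl hV⟩) (finite_Iio j0) fun k _ => ih _ _)
    choose! K hK using k1
    obtain ⟨B, hB⟩ := ((finite_Iio j0).image K).bddAbove
    refine ⟨_, k2, k3, max B j0, ?_⟩
    rintro g hg ⟨i, a1, a2, a3⟩
    by_cases hj : j0 ≤ g m
    · exact ⟨m, le_rfl, j0, hj, hg ▸ inter_subset_left⟩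
    · have hj' : g m ∈ Iio j0 := not_le.1 hj
      have a4 : i ≠ m := by
        rintro rfl
        exact hj ((le_max_right _ _).trans a3.le)
      obtain ⟨i', b1, j, b2, b3⟩ := hK _ hj' g (by rw [hist, hg])
        ⟨i, by omega, by omega, ((hB ⟨_, hj', rfl⟩).trans (le_max_left _ _)).trans_lt a3⟩
      exact ⟨i', by omega, j, b2, inter_subset_right.trans b3⟩

theorem branch (h : Sfin X) {e : List ℕ → ℕ → Set X} (h1 : ∀ t j, Sm (e t j))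
    (h2 : ∀ t p, Pt p → ∃ j, Hit (e t j) p) :
    ∃ g : ℕ → ℕ, ∀ p, Pt p → ∀ m, ∃ i, m ≤ i ∧ ∃ j ≤ g i, Hit (e (hist g i) j) p := by
  have : ∀ t : List ℕ, ∃ K : ℕ → ℕ, ∀ p, Pt p →
      ∃ n U, Hit U p ∧ Good e t t.length (n + 1) (K n) U := by
    intro t
    obtain ⟨𝓕, k1, k2⟩ := h _ fun n => (good_cover h1 h2 (n + 1) t t.length).mem
    have : ∀ n, ∃ B, ∀ U ∈ 𝓕 n, Good e t t.length (n + 1) B U := by
      intro n
      have k3 : ∀ U ∈ 𝓕 n, ∃ K, Good e t t.length (n + 1) K U := fun U hU => ((k1 n).2 hU).2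
      choose! K hK using k3
      obtain ⟨B, hB⟩ := ((k1 n).1.image K).bddAbove
      exact ⟨B, fun U hU => (hK U hU).mono (hB ⟨U, hU, rfl⟩) Subset.rfl⟩
    choose K hK using this
    refine ⟨K, fun p hp => ?_⟩
    obtain ⟨U, hU, hU'⟩ := (mem_DO.1 k2).2 p hp
    obtain ⟨n, hn⟩ := mem_iUnion.1 hU
    exact ⟨n, U, hU', hK n U hn⟩
  choose K hK using this
  have : ∀ t : List ℕ, ∃ B, ∀ s, s <:+ t → K s (t.length - s.length) < B := by
    intro t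
    obtain ⟨B, hB⟩ := ((List.finite_toSet t.tails).image
      fun s => K s (t.length - s.length)).bddAbove
    exact ⟨B + 1, fun s hs => Nat.lt_succ_of_le (hB ⟨s, (List.mem_tails _ _).2 hs, rfl⟩)⟩
  choose B hB using this
  let s : ℕ → List ℕ := fun n => Nat.rec [] (fun _ t => B t :: t) n
  let g : ℕ → ℕ := fun n => B (s n)
  have hs : ∀ n, hist g n = s n := by
    intro n
    induction n with
    | zero => rfl
    | succ n ih => rw [hist, ih]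
  refine ⟨g, fun p hp m => ?_⟩
  obtain ⟨n, U, k1, k2⟩ := hK (hist g m) p hp
  rw [hist_length] at k2
  obtain ⟨i, a1, j, a2, a3⟩ := k2 g rfl ⟨m + n, by omega, by omega, by
    have := hB (hist g (m + n)) _ (hist_suffix g m n)
    rwa [hist_length, hist_length, Nat.add_sub_cancel_left, hs (m + n)] at this⟩
  exact ⟨i, a1, j, a2, k1.mono a3⟩

theorem not_fin (h : Sfin X) : ¬ OneWinsFin X := by
  rintro ⟨σ, h1, h2⟩
  choose e he he' using fun l => enum h (h1 l)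
  let pos : List ℕ → List (Set (Set X)) :=
    fun t => t.foldr (fun k l => (e l '' Iic k) :: l) []
  obtain ⟨g, hg⟩ := branch h (e := fun t => e (pos t))
    (fun t j => (mem_DO.1 (h1 _)).1 _ (he _ j)) fun t => he' _
  let 𝓕 : ℕ → Set (Set X) := fun n => e (pos (hist g n)) '' Iic (g n)
  have e1 : ∀ n, hist 𝓕 n = pos (hist g n) := by
    intro n
    induction n with
    | zero => rfl
    | succ n ih => simp only [hist, ih]; rfl
  refine h2 𝓕 (fun n => ⟨(finite_Iic _).image _, ?_⟩) (mem_DO.2 ⟨fun U hU => ?_, fun p hp => ?_⟩)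
  · rintro _ ⟨j, -, rfl⟩
    rw [e1]
    exact he _ j
  · obtain ⟨n, j, -, rfl⟩ := mem_iUnion.1 hU
    exact (mem_DO.1 (h1 _)).1 _ (he _ j)
  · obtain ⟨i, -, j, a1, a2⟩ := hg p hp 0
    exact ⟨_, mem_iUnion.2 ⟨i, j, a1, rfl⟩, a2⟩

theorem sfin_of (h : S1 X) : Sfin X := by
  intro 𝒰 h𝒰
  obtain ⟨U, h1, h2⟩ := h 𝒰 h𝒰
  exact ⟨fun n => {U n}, fun n => ⟨finite_singleton _, singleton_subset_iff.2 (h1 n)⟩,
    by rwa [iUnion_singleton_eq_range]⟩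

theorem inj_sel (I : ℕ → Finset ℕ) (hI : ∀ n, n < (I n).card) :
    ∃ f : ℕ → ℕ, Function.Injective f ∧ ∀ n, f n ∈ I n := by
  have : ∀ (n : ℕ) (s : Finset ℕ), ∃ y, s.card ≤ n → y ∈ I n ∧ y ∉ s := by
    intro n s
    by_cases hs : s.card ≤ n
    · obtain ⟨y, h1, h2⟩ := Finset.exists_mem_notMem_of_card_lt_card (hs.trans_lt (hI n))
      exact ⟨y, fun _ => ⟨h1, h2⟩⟩
    · exact ⟨0, fun h => absurd h hs⟩
  choose c hc using this
  let s : ℕ → Finset ℕ := fun n => Nat.rec ∅ (fun k t => insert (c k t) t) n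
  have hcard : ∀ n, (s n).card ≤ n := by
    intro n
    induction n with
    | zero => exact le_rfl
    | succ n ih => exact (Finset.card_insert_le _ _).trans (Nat.succ_le_succ ih)
  have hs : Monotone s := monotone_nat_of_le_succ fun n => Finset.subset_insert _ _
  refine ⟨fun n => c n (s n), Function.Injective.of_lt_imp_ne fun a b hab h => ?_,
    fun n => (hc _ _ (hcard n)).1⟩
  exact (hc b (s b) (hcard b)).2 (h ▸ hs (Nat.succ_le_of_lt hab) (Finset.mem_insert_self _ _))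

theorem select (h : S1 X) {E : ℕ → ℕ → Set X} {g : ℕ → ℕ} (h1 : ∀ i j, Sm (E i j))
    (h2 : ∀ p, Pt p → ∀ m, ∃ i, m ≤ i ∧ ∃ j ≤ g i, Hit (E i j) p) :
    ∃ c : ℕ → ℕ, (∀ i, c i ≤ g i) ∧ ∀ p, Pt p → ∃ i, Hit (E i (c i)) p := by
  have key : ∀ n, C fun U => ∃ I : Finset ℕ, n < I.card ∧ ∀ i ∈ I, ∃ j ≤ g i, U ⊆ E i j := by
    intro n
    induction n with
    | zero =>
      intro p hp
      obtain ⟨i, -, j, a1, a2⟩ := h2 p hp 0
      refine ⟨_, h1 i j, a2, {i}, by simp, fun k hk => ?_⟩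
      rw [Finset.mem_singleton.1 hk]
      exact ⟨j, a1, Subset.rfl⟩
    | succ n ih =>
      intro p hp
      obtain ⟨U, a1, a2, I, a3, a4⟩ := ih p hp
      obtain ⟨V, ⟨i, b1, j, b2, b3⟩, b4, b5⟩ := shrink hp a1 a2
        (Q := fun V => ∃ i, I.sup id + 1 ≤ i ∧ ∃ j ≤ g i, V ⊆ E i j) (fun q hq => by
          obtain ⟨i, c1, j, c2, c3⟩ := h2 q hq (I.sup id + 1)
          exact ⟨_, h1 i j, c3, i, c1, j, c2, Subset.rfl⟩)
      have hi : i ∉ I := fun hi => by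
        have := Finset.le_sup (f := id) hi
        simp only [id] at this
        omega
      refine ⟨_, b4, b5, insert i I, by rw [Finset.card_insert_of_notMem hi]; omega,
        fun k hk => ?_⟩
      rcases Finset.mem_insert.1 hk with rfl | hk
      · exact ⟨j, b2, inter_subset_right.trans b3⟩
      · obtain ⟨j', d1, d2⟩ := a4 k hk
        exact ⟨j', d1, inter_subset_left.trans d2⟩
  obtain ⟨U, k1, k2⟩ := h _ fun n => (key n).mem
  choose I hI hI' using fun n => (k1 n).2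
  obtain ⟨f, hf, hf'⟩ := inj_sel I hI
  have : ∀ i, ∃ j ≤ g i, ∀ n, f n = i → U n ⊆ E i j := by
    intro i
    by_cases hi : ∃ n, f n = i
    · obtain ⟨n, rfl⟩ := hi
      obtain ⟨j, a1, a2⟩ := hI' n _ (hf' n)
      exact ⟨j, a1, fun m hm => hf hm ▸ a2⟩
    · exact ⟨0, Nat.zero_le _, fun n hn => absurd ⟨n, hn⟩ hi⟩
  choose c hc hc' using this
  refine ⟨c, hc, fun p hp => ?_⟩
  obtain ⟨_, ⟨n, rfl⟩, a⟩ := (mem_DO.1 k2).2 p hp
  exact ⟨f n, a.mono (hc' _ n rfl)⟩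

theorem not_one (h : S1 X) : ¬ OneWins1 X := by
  rintro ⟨σ, h1, h2⟩
  have hc : ∀ l, C fun U => ∃ V ∈ σ l, U ⊆ V := fun l p hp => by
    obtain ⟨U, a1, a2⟩ := (mem_DO.1 (h1 l)).2 p hp
    exact ⟨U, (mem_DO.1 (h1 l)).1 U a1, a2, U, a1, Subset.rfl⟩
  have h0 : C fun _ : Set X => True := fun p hp => by
    obtain ⟨U, a1, a2, -⟩ := hc [] p hp
    exact ⟨U, a1, a2, trivial⟩
  have : ∀ T : Set (List (Set X)), ∃ e : ℕ → Set X, (∀ j, Sm (e j)) ∧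
      (∀ p, Pt p → ∃ j, Hit (e j) p) ∧ (T.Finite → ∀ j, ∀ l ∈ T, ∃ V ∈ σ l, e j ⊆ V) := by
    intro T
    by_cases hT : T.Finite
    · obtain ⟨e, a1, a2⟩ := enum (sfin_of h) (C.fin h0 (Q := fun l U => ∃ V ∈ σ l, U ⊆ V)
        (fun l U W hW ⟨V, b1, b2⟩ => ⟨V, b1, hW.trans b2⟩) hT fun l _ => hc l).mem
      exact ⟨e, fun j => (a1 j).1, a2, fun _ j => (a1 j).2⟩
    · obtain ⟨e, a1, a2⟩ := enum (sfin_of h) h0.mem
      exact ⟨e, fun j => (a1 j).1, a2, fun h => absurd h hT⟩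
  choose e e1 e2 e3 using this
  have : ∀ (U : Set X) (l : List (Set X)), ∃ V, (∃ V ∈ σ l, U ⊆ V) → V ∈ σ l ∧ U ⊆ V := by
    intro U l
    by_cases hh : ∃ V ∈ σ l, U ⊆ V
    · obtain ⟨V, hV⟩ := hh
      exact ⟨V, fun _ => hV⟩
    · exact ⟨∅, fun h => absurd h hh⟩
  choose v hv using this
  let T : List ℕ → Set (List (Set X)) := fun t => t.foldr
    (fun k S => image2 (fun j l => v (e S j) l :: l) (Iic k) S) {[]}
  have hT : ∀ t, (T t).Finite := by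
    intro t
    induction t with
    | nil => exact finite_singleton _
    | cons k t ih => exact (finite_Iic k).image2 _ ih
  obtain ⟨g, hg⟩ := branch (sfin_of h) (e := fun t => e (T t)) (fun t => e1 _) fun t => e2 _
  obtain ⟨c, hc1, hc2⟩ := select h (E := fun i => e (T (hist g i))) (fun i => e1 _) hg
  let L : ℕ → List (Set X) := fun n =>
    Nat.rec [] (fun k l => v (e (T (hist g k)) (c k)) l :: l) n
  let U : ℕ → Set X := fun n => v (e (T (hist g n)) (c n)) (L n)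
  have a1 : ∀ n, hist U n = L n := by
    intro n
    induction n with
    | zero => rfl
    | succ n ih => rw [hist, ih]
  have a2 : ∀ n, L n ∈ T (hist g n) := by
    intro n
    induction n with
    | zero => rfl
    | succ n ih => exact ⟨c n, hc1 n, L n, ih, rfl⟩
  have a3 : ∀ n, U n ∈ σ (L n) ∧ e (T (hist g n)) (c n) ⊆ U n := fun n =>
    hv _ _ (e3 _ (hT _) _ _ (a2 n))
  refine h2 U (fun n => a1 n ▸ (a3 n).1) (mem_DO.2 ⟨?_, fun p hp => ?_⟩)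
  · rintro _ ⟨n, rfl⟩
    exact (mem_DO.1 (h1 _)).1 _ (a3 n).1
  · obtain ⟨i, hi⟩ := hc2 p hp
    exact ⟨_, ⟨i, rfl⟩, hi.mono (a3 i).2⟩

theorem result (X : Type u) [TopologicalSpace X] :
    (S1 X ↔ ¬ OneWins1 X) ∧ (Sfin X ↔ ¬ OneWinsFin X) := by
  refine ⟨⟨not_one, fun h 𝒰 h𝒰 => ?_⟩, ⟨not_fin, fun h 𝒰 h𝒰 => ?_⟩⟩
  · by_contra hc
    refine h ⟨fun l => 𝒰 l.length, fun l => h𝒰 _, fun U hU hD => hc ⟨U, fun n => ?_, hD⟩⟩
    simpa only [hist_length] using hU n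
  · by_contra hc
    refine h ⟨fun l => 𝒰 l.length, fun l => h𝒰 _, fun U hU hD => hc ⟨U, fun n => ?_, hD⟩⟩
    simpa only [hist_length] using hU n

end Pool.Agent.Results.MP_549d70_gt.Games
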